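import Mathlib

/-!
# Algebra for the determinant method on hyperelliptic curves
-/

set_option autoImplicit false

namespace Pool.Agent.K7.H12.BP

open Polynomial Finset

/-- vectors all of whose determinants vanish satisfy a common linear relation -/
theorem exists_rel {n ι : Type} [Fintype n] [DecidableEq n] (φ : ι → n → ℝ)
    (h : ∀ x : n → ι, Matrix.det (Matrix.of fun i j => φ (x i) j) = 0) :
    ∃ c : n → ℝ, c ≠ 0 ∧ ∀ i, ∑ j, c j * φ i j = 0 := by
  by_cases hp : Submodule.span ℝ (Set.range φ) = ⊤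
  · exfalso
    obtain ⟨f, hf1, -, hf3⟩ := Submodule.exists_fun_fin_finrank_span_eq ℝ (Set.range φ)
    have hcard : Module.finrank ℝ (Submodule.span ℝ (Set.range φ)) = Fintype.card n := by
      rw [hp, finrank_top, Module.finrank_fintype_fun_eq_card]
    let e : n ≃ Fin (Module.finrank ℝ (Submodule.span ℝ (Set.range φ))) :=
      (Fintype.equivFin n).trans (finCongr hcard.symm)
    choose x hx using fun i => hf1 (e i)
    have hli : LinearIndependent ℝ (fun i => φ (x i)) := by
      have h1 : (fun i => φ (x i)) = f ∘ e := by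
        funext i
        exact hx i
      rw [h1]
      exact hf3.comp e e.injective
    have h2 := h x
    have h3 : IsUnit (Matrix.of fun i j => φ (x i) j) := by
      rw [← Matrix.linearIndependent_rows_iff_isUnit]
      exact hli
    rw [Matrix.isUnit_iff_isUnit_det, h2] at h3
    exact not_isUnit_zero h3
  · obtain ⟨g, hg, hg'⟩ := Submodule.exists_le_ker_of_lt_top _ (lt_top_iff_ne_top.2 hp)
    refine ⟨fun j => g (Pi.single j 1), fun h0 => hg ?_, fun i => ?_⟩
    · apply LinearMap.pi_ext'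
      intro j
      ext
      simpa using congrFun h0 j
    · have h1 : φ i = ∑ j, φ i j • (Pi.single j 1 : n → ℝ) := by
        rw [← pi_eq_sum_univ' (φ i)]
      have h2 : g (φ i) = 0 := hg' (Submodule.subset_span ⟨i, rfl⟩)
      rw [h1, map_sum] at h2
      rw [← h2]
      refine sum_congr rfl fun j _ => ?_
      rw [map_smul, smul_eq_mul, mul_comm]

/-- a separable polynomial of positive degree is not a quotient of squares -/
theorem sq_rel {f A B : ℝ[X]} (hf : f.Separable) (hd : 1 ≤ f.natDegree) (h : A ^ 2 = f * B ^ 2) :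
    A = 0 ∧ B = 0 := by
  have hf0 : f ≠ 0 := hf.ne_zero
  by_cases hB : B = 0
  · subst hB
    refine ⟨?_, rfl⟩
    simpa using h
  · exfalso
    have h1 : B ∣ A := by
      rw [← IsIntegrallyClosed.pow_dvd_pow_iff (two_ne_zero)]
      exact ⟨f, by rw [h]; ring⟩
    obtain ⟨D, rfl⟩ := h1
    have h2 : f = D ^ 2 := by
      have h3 : B ^ 2 * D ^ 2 = B ^ 2 * f := by rw [← mul_pow, h]; ring
      exact (mul_left_cancel₀ (pow_ne_zero 2 hB) h3).symm
    have h4 : IsUnit D := hf.squarefree D ⟨1, by rw [h2]; ring⟩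
    have h5 : f.natDegree = 0 := by
      rw [h2, natDegree_pow, natDegree_eq_zero_of_isUnit h4]
    omega

/-- square roots of `1 + X` modulo powers of `X` -/
theorem exists_sqrt (m : ℕ) : ∃ T R : ℝ[X], T.eval 0 = 1 ∧ T ^ 2 - (1 + X) = X ^ m * R := by
  rcases Nat.eq_zero_or_pos m with rfl | hm
  · exact ⟨1, 1 - (1 + X), by simp, by simp⟩
  · obtain ⟨k, rfl⟩ : ∃ k, m = k + 1 := ⟨m - 1, by omega⟩
    clear hm
    induction k with
    | zero => exact ⟨1, -1, by simp, by simp⟩
    | succ k ih =>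
      obtain ⟨T, R, hT, hR⟩ := ih
      set a : ℝ := -(R.eval 0) / 2 with ha
      have h0 : X ∣ R + 2 * C a * T + C (a ^ 2) * X ^ (k + 1) := by
        rw [X_dvd_iff, coeff_zero_eq_eval_zero]
        simp only [eval_add, eval_mul, eval_C, eval_pow, eval_X, hT, eval_ofNat]
        rw [ha]
        simp
        ring
      obtain ⟨R', hR'⟩ := h0
      refine ⟨T + C a * X ^ (k + 1), R', ?_, ?_⟩
      · simp [hT]
      · have : (T + C a * X ^ (k + 1)) ^ 2 - (1 + X) =
            X ^ (k + 1) * (R + 2 * C a * T + C (a ^ 2) * X ^ (k + 1)) := by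
          have e : (T + C a * X ^ (k + 1)) ^ 2 - (1 + X) = (T ^ 2 - (1 + X)) +
              2 * C a * T * X ^ (k + 1) + (C a) ^ 2 * X ^ (k + 1) * X ^ (k + 1) := by ring
          rw [e, hR, C_pow]
          ring
        rw [this, hR']
        ring

/-- the coefficients of `P` are dominated by those of `Q` -/
def Dom (P Q : ℝ[X]) : Prop := ∀ i, |P.coeff i| ≤ Q.coeff i

theorem Dom.nonneg {P Q : ℝ[X]} (h : Dom P Q) (i : ℕ) : 0 ≤ Q.coeff i := (abs_nonneg _).trans (h i)

theorem Dom.add {P Q P' Q' : ℝ[X]} (h : Dom P Q) (h' : Dom P' Q') : Dom (P + P') (Q + Q') := by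
  intro i
  rw [coeff_add, coeff_add]
  exact (abs_add_le _ _).trans (add_le_add (h i) (h' i))

theorem Dom.mul {P Q P' Q' : ℝ[X]} (h : Dom P Q) (h' : Dom P' Q') : Dom (P * P') (Q * Q') := by
  intro i
  rw [coeff_mul, coeff_mul]
  refine (abs_sum_le_sum_abs _ _).trans (sum_le_sum fun p _ => ?_)
  rw [abs_mul]
  exact mul_le_mul (h _) (h' _) (abs_nonneg _) (h.nonneg _)

theorem dom_C {a b : ℝ} (h : |a| ≤ b) : Dom (C a) (C b) := by
  intro i
  rw [coeff_C, coeff_C]
  split_ifs
  · exact h
  · simp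

theorem Dom.pow {P Q : ℝ[X]} (h : Dom P Q) (k : ℕ) : Dom (P ^ k) (Q ^ k) := by
  induction k with
  | zero =>
    have := dom_C (a := 1) (b := 1) (by simp)
    simpa using this
  | succ k ih =>
    rw [pow_succ, pow_succ]
    exact ih.mul h

theorem dom_zero : Dom 0 0 := by
  intro i
  simp

theorem Dom.sum {ι : Type} {s : Finset ι} {P Q : ι → ℝ[X]} (h : ∀ i ∈ s, Dom (P i) (Q i)) :
    Dom (∑ i ∈ s, P i) (∑ i ∈ s, Q i) := by
  classical
  induction s using Finset.induction_on with
  | empty => simpa using dom_zero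
  | insert a s ha ih =>
    rw [sum_insert ha, sum_insert ha]
    exact (h a (mem_insert_self a s)).add (ih fun i hi => h i (mem_insert_of_mem hi))

theorem dom_X : Dom X X := by
  intro i
  rw [coeff_X]
  split_ifs <;> simp

theorem dom_one_add_X : Dom (1 + X) (1 + X) := by
  have := (dom_C (a := 1) (b := 1) (by simp)).add dom_X
  simpa using this

theorem Dom.comp {T P Q : ℝ[X]} (h : Dom P Q) :
    Dom (T.comp P) (∑ i ∈ range (T.natDegree + 1), C |T.coeff i| * Q ^ i) := by
  have h1 : T.comp P = ∑ i ∈ range (T.natDegree + 1), C (T.coeff i) * P ^ i := by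
    rw [Polynomial.comp, eval₂_eq_sum_range]
  rw [h1]
  exact Dom.sum fun i _ => (dom_C (by simp)).mul (h.pow i)

/-- evaluation as a sum over `Fin M` -/
theorem eval_fin {P : ℝ[X]} {M : ℕ} (h : P.natDegree < M) (z : ℝ) :
    P.eval z = ∑ k : Fin M, z ^ (k : ℕ) * P.coeff k := by
  rw [eval_eq_sum_range' h, Finset.sum_range]
  exact sum_congr rfl fun k _ => mul_comm _ _

end Pool.Agent.K7.H12.BP
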