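import Pool.Agent.K7.H12.BP.Win

/-!
# The abscissas of large integral points of all hyperelliptic curves of given degree are sparse
-/

set_option autoImplicit false

namespace Pool.Agent.K7.H12.BP

open Polynomial Finset

/-- the largest absolute value of a coefficient -/
def M (f : ℤ[X]) : ℕ := f.support.sup fun i => (f.coeff i).natAbs

lemma coeff_le_M (f : ℤ[X]) (i : ℕ) : (f.coeff i).natAbs ≤ M f := by
  by_cases h : i ∈ f.support
  · exact Finset.le_sup (f := fun i => (f.coeff i).natAbs) h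
  · rw [notMem_support_iff] at h
    rw [h]
    exact Nat.zero_le _

/-- `x` is the abscissa of an integral point of a curve `y ^ 2 = f (x)`, `f` of degree `d` without
multiple roots, and `|x| > M (f) ^ C` -/
def Vio (d : ℕ) (C₁ : ℝ) : Set ℤ :=
  {x | ∃ f : ℤ[X], f.natDegree = d ∧ (f.map (Int.castRingHom ℚ)).Separable ∧
    (M f : ℝ) ^ C₁ < |(x : ℝ)| ∧ ∃ y : ℤ, y ^ 2 = f.eval x}

lemma finite_Icc' (a b : ℝ) (Q : ℤ → Prop) : {x : ℤ | (a ≤ x ∧ (x : ℝ) ≤ b) ∧ Q x}.Finite := by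
  refine (Set.finite_Icc ⌈a⌉ ⌊b⌋).subset ?_
  rintro x ⟨⟨h1, h2⟩, -⟩
  exact ⟨Int.ceil_le.2 h1, Int.le_floor.2 h2⟩

lemma ncard_Icc' {a b : ℝ} (hab : a ≤ b) (Q : ℤ → Prop) :
    (({x : ℤ | (a ≤ x ∧ (x : ℝ) ≤ b) ∧ Q x}.ncard : ℕ) : ℝ) ≤ b - a + 1 := by
  have h1 : {x : ℤ | (a ≤ x ∧ (x : ℝ) ≤ b) ∧ Q x} ⊆ ((Finset.Icc ⌈a⌉ ⌊b⌋ : Finset ℤ) : Set ℤ) := by
    rintro x ⟨⟨h1, h2⟩, -⟩
    rw [coe_Icc]
    exact ⟨Int.ceil_le.2 h1, Int.le_floor.2 h2⟩
  have h2 := Set.ncard_le_ncard h1 (Finset.finite_toSet _)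
  rw [Set.ncard_coe_finset, Int.card_Icc] at h2
  have h3 : (((⌊b⌋ + 1 - ⌈a⌉).toNat : ℕ) : ℝ) ≤ b - a + 1 := by
    have h4 : (((⌊b⌋ + 1 - ⌈a⌉).toNat : ℕ) : ℝ) = ((max (⌊b⌋ + 1 - ⌈a⌉) 0 : ℤ) : ℝ) := by
      rw [← Int.toNat_eq_max]
      rfl
    rw [h4]
    push_cast
    refine max_le ?_ (by linarith)
    have := Int.floor_le b
    have := Int.le_ceil a
    linarith
  refine le_trans ?_ h3
  exact_mod_cast h2

/-- covering `[Y, 2 Y]` by short intervals -/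
lemma cover {c κ A : ℝ} {B : ℕ} (hc0 : 0 < c) (hκ : 0 ≤ κ) {Q : ℤ → Prop}
    (hQ : ∀ x0 : ℝ, A ≤ x0 → ∀ P : Finset ℤ,
      (∀ x ∈ P, x0 ≤ x ∧ (x : ℝ) ≤ x0 * (1 + c * x0 ^ (-κ)) ∧ Q x) → P.card ≤ B)
    {Y : ℝ} (hY : A ≤ Y) (hY1 : 1 ≤ Y) :
    (({x : ℤ | (Y ≤ x ∧ (x : ℝ) ≤ 2 * Y) ∧ Q x}.ncard : ℕ) : ℝ) ≤ B * (2 ^ κ / c + 1) * Y ^ κ := by
  classical
  have hY0 : 0 < Y := by linarith
  obtain ⟨L, hL⟩ : ∃ L : ℝ, L = Y * (c * (2 * Y) ^ (-κ)) := ⟨_, rfl⟩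
  have hL0 : 0 < L := by rw [hL]; positivity
  have hfin := finite_Icc' Y (2 * Y) Q
  rw [Set.ncard_eq_toFinset_card _ hfin]
  obtain ⟨S, hS⟩ : ∃ S, S = hfin.toFinset := ⟨_, rfl⟩
  rw [← hS]
  have hSm : ∀ x ∈ S, (Y ≤ (x : ℝ) ∧ (x : ℝ) ≤ 2 * Y) ∧ Q x := fun x hx => by
    rw [hS, Set.Finite.mem_toFinset] at hx
    exact hx
  have h1 := Finset.card_le_mul_card_image (f := fun x : ℤ => ⌊((x : ℝ) - Y) / L⌋₊) S B (by
    intro i _
    refine hQ (Y + i * L) (by have : (0 : ℝ) ≤ i * L := by positivity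
                              linarith) _ fun x hx => ?_
    rw [mem_filter] at hx
    obtain ⟨⟨h1, h2⟩, h3⟩ := hSm x hx.1
    have hn : 0 ≤ ((x : ℝ) - Y) / L := div_nonneg (by linarith) hL0.le
    have h4 := Nat.floor_le hn
    have h5 := Nat.lt_floor_add_one (((x : ℝ) - Y) / L)
    rw [hx.2] at h4 h5
    rw [le_div_iff₀ hL0] at h4
    rw [div_lt_iff₀ hL0] at h5
    have hx0 : 0 < Y + i * L := by positivity
    refine ⟨by linarith, ?_, h3⟩
    have h6 : L ≤ (Y + i * L) * (c * (Y + i * L) ^ (-κ)) := by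
      have h7 : (2 * Y) ^ (-κ) ≤ (Y + i * L) ^ (-κ) :=
        Real.rpow_le_rpow_of_nonpos hx0 (by linarith) (by linarith)
      have h8 : Y ≤ Y + i * L := by have : (0 : ℝ) ≤ i * L := by positivity
                                    linarith
      calc L = Y * (c * (2 * Y) ^ (-κ)) := hL
        _ ≤ (Y + i * L) * (c * (Y + i * L) ^ (-κ)) :=
          mul_le_mul h8 (mul_le_mul_of_nonneg_left h7 hc0.le) (by positivity) hx0.le
    nlinarith)
  have h2 : (S.image fun x : ℤ => ⌊((x : ℝ) - Y) / L⌋₊).card ≤ ⌊Y / L⌋₊ + 1 := by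
    rw [← card_range (⌊Y / L⌋₊ + 1)]
    apply card_le_card
    intro i hi
    rw [mem_image] at hi
    obtain ⟨x, hx, rfl⟩ := hi
    rw [mem_range, Nat.lt_succ_iff]
    apply Nat.floor_le_floor
    apply div_le_div_of_nonneg_right _ hL0.le
    have := (hSm x hx).1.2
    linarith
  have h3 : ((⌊Y / L⌋₊ : ℕ) : ℝ) ≤ 2 ^ κ / c * Y ^ κ := by
    refine (Nat.floor_le (by positivity)).trans (le_of_eq ?_)
    rw [hL, Real.rpow_neg (by positivity), Real.mul_rpow (by norm_num) hY0.le]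
    field_simp
  have h4 : (1 : ℝ) ≤ Y ^ κ := Real.one_le_rpow hY1 hκ
  have h5 : (S.card : ℝ) ≤ B * ((⌊Y / L⌋₊ : ℕ) + 1) := by
    have := h1.trans (Nat.mul_le_mul_left B h2)
    exact_mod_cast this
  calc (S.card : ℝ) ≤ B * ((⌊Y / L⌋₊ : ℕ) + 1) := h5
    _ ≤ B * (2 ^ κ / c * Y ^ κ + Y ^ κ) := by gcongr
    _ = B * (2 ^ κ / c + 1) * Y ^ κ := by ring

/-- the integral polynomials of degree at most `d` with coefficients at most `h` -/
noncomputable def box (d h : ℕ) : Finset ℤ[X] :=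
  (Fintype.piFinset (fun _ : Fin (d + 1) => Finset.Icc (-(h : ℤ)) h)).image
    (fun a => ∑ i : Fin (d + 1), C (a i) * X ^ (i : ℕ))

lemma card_box (d h : ℕ) : (box d h).card ≤ (2 * h + 1) ^ (d + 1) := by
  unfold box
  refine card_image_le.trans (le_of_eq ?_)
  rw [Fintype.card_piFinset]
  simp only [Int.card_Icc, prod_const, card_univ, Fintype.card_fin]
  congr 1
  omega

lemma mem_box {d h : ℕ} {f : ℤ[X]} (hf : f.natDegree = d) (hM : M f ≤ h) : f ∈ box d h := by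
  unfold box
  rw [mem_image]
  refine ⟨fun i => f.coeff i, ?_, ?_⟩
  · rw [Fintype.mem_piFinset]
    intro i
    rw [Finset.mem_Icc]
    have := (coeff_le_M f i).trans hM
    omega
  · rw [← Finset.sum_range (fun i => C (f.coeff i) * X ^ i), ← hf]
    exact (as_sum_range_C_mul_X_pow f).symm

/-- the points of one dyadic interval, positive abscissas -/
lemma dyadic (d : ℕ) (hd : 1 ≤ d) {C₁ : ℝ} (hC₁ : 2 * (d + 1) < C₁) (K : ℕ) (hK : 1 ≤ K) :
    ∃ C : ℝ, 0 ≤ C ∧ ∀ Y : ℝ, 1 ≤ Y →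
      (({x : ℤ | (Y ≤ x ∧ (x : ℝ) ≤ 2 * Y) ∧ x ∈ Vio d C₁}.ncard : ℕ) : ℝ) ≤
        C * Y ^ (κ d K + (d + 1) / C₁) := by
  classical
  obtain ⟨c, hc0, hc1, hw⟩ := window d K hd hK
  have hd1 : (1 : ℝ) ≤ d := by exact_mod_cast hd
  have hC0 : 0 < C₁ := by linarith
  have hκ0 : 0 ≤ κ d K := by
    unfold κ
    have : (1 : ℝ) ≤ K := by exact_mod_cast hK
    have : (0 : ℝ) < 4 * K - 2 := by linarith
    positivity
  have hs0 : 0 ≤ κ d K + (d + 1) / C₁ := by positivity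
  obtain ⟨B, hB⟩ : ∃ B : ℝ, B = ((2 * K + d : ℕ) : ℝ) * (2 ^ κ d K / c + 1) := ⟨_, rfl⟩
  have hB0 : 0 ≤ B := by rw [hB]; positivity
  obtain ⟨Y0, hY0⟩ : ∃ Y0 : ℝ, Y0 = 8 * (d + 1) ^ 2 := ⟨_, rfl⟩
  have hY01 : 1 ≤ Y0 := by rw [hY0]; nlinarith
  refine ⟨(6 : ℝ) ^ (d + 1) * B + (Y0 + 1), by positivity, fun Y hY1 => ?_⟩
  have hYp : 0 < Y := by linarith
  have hYs : 1 ≤ Y ^ (κ d K + (d + 1) / C₁) := Real.one_le_rpow hY1 hs0
  rcases lt_or_ge Y Y0 with hlt | hge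
  · calc (({x : ℤ | (Y ≤ x ∧ (x : ℝ) ≤ 2 * Y) ∧ x ∈ Vio d C₁}.ncard : ℕ) : ℝ)
        ≤ 2 * Y - Y + 1 := ncard_Icc' (by linarith) _
      _ ≤ ((6 : ℝ) ^ (d + 1) * B + (Y0 + 1)) * 1 := by
          have : 0 ≤ (6 : ℝ) ^ (d + 1) * B := by positivity
          linarith
      _ ≤ _ := mul_le_mul_of_nonneg_left hYs (by positivity)
  · obtain ⟨H, hH⟩ : ∃ H : ℝ, H = (2 * Y) ^ (1 / C₁) := ⟨_, rfl⟩
    have hH1 : 1 ≤ H := by rw [hH]; exact Real.one_le_rpow (by linarith) (by positivity)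
    have hHY : 2 * (d + 1) * H ≤ Y := by
      have h1 : H ≤ Real.sqrt (2 * Y) := by
        rw [hH, Real.sqrt_eq_rpow]
        apply Real.rpow_le_rpow_of_exponent_le (by linarith)
        rw [div_le_div_iff₀ hC0 (by norm_num)]
        linarith
      have h2 := Real.mul_self_sqrt (show 0 ≤ 2 * Y by linarith)
      have h3 := Real.sqrt_nonneg (2 * Y)
      have h4 : 4 * (d + 1) ≤ Real.sqrt (2 * Y) := by
        apply Real.le_sqrt_of_sq_le
        rw [hY0] at hge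
        nlinarith
      nlinarith
    have hsub : {x : ℤ | (Y ≤ x ∧ (x : ℝ) ≤ 2 * Y) ∧ x ∈ Vio d C₁} ⊆
        ⋃ f ∈ (box d ⌊H⌋₊).filter (fun f => f.natDegree = d ∧
          (f.map (Int.castRingHom ℚ)).Separable ∧ (M f : ℝ) ≤ H),
          {x : ℤ | (Y ≤ x ∧ (x : ℝ) ≤ 2 * Y) ∧ ∃ y : ℤ, y ^ 2 = f.eval x} := by
      rintro x ⟨⟨h1, h2⟩, f, h3, h4, h5, h6⟩
      have h7 : (M f : ℝ) ≤ H := by
        have e1 : ((M f : ℝ) ^ C₁) ^ (1 / C₁) = M f := by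
          rw [← Real.rpow_mul (Nat.cast_nonneg _), mul_one_div_cancel hC0.ne', Real.rpow_one]
        rw [← e1, hH]
        apply Real.rpow_le_rpow (by positivity) _ (by positivity)
        rw [abs_of_nonneg (by linarith)] at h5
        linarith
      rw [Set.mem_iUnion₂]
      refine ⟨f, ?_, ⟨h1, h2⟩, h6⟩
      rw [mem_filter]
      exact ⟨mem_box h3 (Nat.le_floor h7), h3, h4, h7⟩
    have hfinU : (⋃ f ∈ (box d ⌊H⌋₊).filter (fun f => f.natDegree = d ∧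
          (f.map (Int.castRingHom ℚ)).Separable ∧ (M f : ℝ) ≤ H),
          {x : ℤ | (Y ≤ x ∧ (x : ℝ) ≤ 2 * Y) ∧ ∃ y : ℤ, y ^ 2 = f.eval x}).Finite :=
      Set.Finite.biUnion (Finset.finite_toSet _) fun f _ => finite_Icc' _ _ _
    have hone : ∀ f ∈ (box d ⌊H⌋₊).filter (fun f => f.natDegree = d ∧
          (f.map (Int.castRingHom ℚ)).Separable ∧ (M f : ℝ) ≤ H),
        (({x : ℤ | (Y ≤ x ∧ (x : ℝ) ≤ 2 * Y) ∧ ∃ y : ℤ, y ^ 2 = f.eval x}.ncard : ℕ) : ℝ) ≤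
          B * Y ^ κ d K := by
      intro f hf
      rw [mem_filter] at hf
      obtain ⟨-, h1, h2, h3⟩ := hf
      rw [hB]
      refine cover (A := 2 * (d + 1) * H) hc0 hκ0 (fun x0 hx0 P hP => ?_) hHY hY1
      refine hw f h1 h2 H hH1 (fun i => ?_) x0 hx0 P hP
      have h4 := coeff_le_M f i
      have h5 : (((f.coeff i).natAbs : ℕ) : ℝ) ≤ M f := by exact_mod_cast h4
      rw [Nat.cast_natAbs, Int.cast_abs] at h5
      exact h5.trans h3
    have hcard : (((box d ⌊H⌋₊).filter (fun f => f.natDegree = d ∧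
          (f.map (Int.castRingHom ℚ)).Separable ∧ (M f : ℝ) ≤ H)).card : ℝ) ≤
          (3 * H) ^ (d + 1) := by
      have h1 : (((box d ⌊H⌋₊).filter (fun f => f.natDegree = d ∧
          (f.map (Int.castRingHom ℚ)).Separable ∧ (M f : ℝ) ≤ H)).card : ℝ) ≤
          ((2 * ⌊H⌋₊ + 1) ^ (d + 1) : ℕ) := by
        exact_mod_cast (card_filter_le _ _).trans (card_box d ⌊H⌋₊)
      refine h1.trans ?_
      push_cast
      have h2 := Nat.floor_le (by linarith : 0 ≤ H)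
      exact pow_le_pow_left₀ (by positivity) (by linarith) _
    have hHp : H ^ (d + 1) ≤ 2 ^ (d + 1) * Y ^ (((d : ℝ) + 1) / C₁) := by
      have e1 : H ^ (d + 1) = (2 * Y) ^ (((d : ℝ) + 1) / C₁) := by
        rw [hH, ← Real.rpow_natCast, ← Real.rpow_mul (by positivity)]
        congr 1
        push_cast
        ring
      rw [e1, Real.mul_rpow (by norm_num) hYp.le]
      apply mul_le_mul_of_nonneg_right _ (by positivity)
      rw [← Real.rpow_natCast]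
      apply Real.rpow_le_rpow_of_exponent_le (by norm_num)
      rw [div_le_iff₀ hC0]
      push_cast
      nlinarith
    calc (({x : ℤ | (Y ≤ x ∧ (x : ℝ) ≤ 2 * Y) ∧ x ∈ Vio d C₁}.ncard : ℕ) : ℝ)
        ≤ ((⋃ f ∈ (box d ⌊H⌋₊).filter (fun f => f.natDegree = d ∧
          (f.map (Int.castRingHom ℚ)).Separable ∧ (M f : ℝ) ≤ H),
          {x : ℤ | (Y ≤ x ∧ (x : ℝ) ≤ 2 * Y) ∧ ∃ y : ℤ, y ^ 2 = f.eval x}).ncard : ℝ) := by
          exact_mod_cast Set.ncard_le_ncard hsub hfinU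
      _ ≤ ∑ f ∈ (box d ⌊H⌋₊).filter (fun f => f.natDegree = d ∧
          (f.map (Int.castRingHom ℚ)).Separable ∧ (M f : ℝ) ≤ H),
          (({x : ℤ | (Y ≤ x ∧ (x : ℝ) ≤ 2 * Y) ∧ ∃ y : ℤ, y ^ 2 = f.eval x}.ncard : ℕ) : ℝ) := by
          exact_mod_cast Finset.set_ncard_biUnion_le _ _
      _ ≤ ∑ _f ∈ (box d ⌊H⌋₊).filter (fun f => f.natDegree = d ∧
          (f.map (Int.castRingHom ℚ)).Separable ∧ (M f : ℝ) ≤ H), B * Y ^ κ d K := sum_le_sum hone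
      _ = (((box d ⌊H⌋₊).filter (fun f => f.natDegree = d ∧
          (f.map (Int.castRingHom ℚ)).Separable ∧ (M f : ℝ) ≤ H)).card : ℝ) * (B * Y ^ κ d K) := by
          rw [sum_const, nsmul_eq_mul]
      _ ≤ (3 * H) ^ (d + 1) * (B * Y ^ κ d K) := mul_le_mul_of_nonneg_right hcard (by positivity)
      _ = 3 ^ (d + 1) * H ^ (d + 1) * (B * Y ^ κ d K) := by rw [mul_pow]
      _ ≤ 3 ^ (d + 1) * (2 ^ (d + 1) * Y ^ (((d : ℝ) + 1) / C₁)) * (B * Y ^ κ d K) := by gcongr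
      _ = ((3 : ℝ) ^ (d + 1) * 2 ^ (d + 1) * B) * (Y ^ κ d K * Y ^ (((d : ℝ) + 1) / C₁)) := by ring
      _ = (6 : ℝ) ^ (d + 1) * B * Y ^ (κ d K + (d + 1) / C₁) := by
          rw [← mul_pow, ← Real.rpow_add hYp]
          norm_num
      _ ≤ ((6 : ℝ) ^ (d + 1) * B + (Y0 + 1)) * Y ^ (κ d K + (d + 1) / C₁) := by
          apply mul_le_mul_of_nonneg_right _ (by positivity)
          linarith

lemma M_comp_neg (f : ℤ[X]) : M (f.comp (-X)) = M f := by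
  have h : ∀ i, (f.comp (-X)).coeff i = f.coeff i * (-1) ^ i := fun i => by
    have e : (-X : ℤ[X]) = C (-1) * X := by simp
    rw [e, comp_C_mul_X_coeff]
  have hs : (f.comp (-X)).support = f.support := by
    ext i
    rw [mem_support_iff, mem_support_iff, h]
    have : ((-1 : ℤ)) ^ i ≠ 0 := pow_ne_zero _ (by norm_num)
    simp [this]
  unfold M
  rw [hs]
  refine Finset.sup_congr rfl fun i _ => ?_
  simp only [h, Int.natAbs_mul, Int.natAbs_pow]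
  simp

lemma Vio_neg {d : ℕ} {C₁ : ℝ} {x : ℤ} (h : x ∈ Vio d C₁) : -x ∈ Vio d C₁ := by
  obtain ⟨f, h1, h2, h3, y, h4⟩ := h
  refine ⟨f.comp (-X), ?_, ?_, ?_, y, ?_⟩
  · rw [natDegree_comp, natDegree_neg, natDegree_X, mul_one, h1]
  · rw [Polynomial.map_comp, Polynomial.map_neg, map_X]
    have h5 : IsCoprime (f.map (Int.castRingHom ℚ)) (derivative (f.map (Int.castRingHom ℚ))) := h2
    have h6 := h5.map (compRingHom (-X))
    rw [coe_compRingHom_apply, coe_compRingHom_apply] at h6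
    rw [separable_def, derivative_comp, derivative_neg, derivative_X, neg_one_mul]
    exact h6.neg_right
  · rw [M_comp_neg]
    push_cast
    rwa [abs_neg]
  · rw [h4, eval_comp]
    simp

/-- **The abscissas of large integral points are sparse.** -/
theorem count (d : ℕ) (hd : 1 ≤ d) {C₁ : ℝ} (hC₁ : 2 * (d + 1) < C₁) (ε : ℝ) (hε : 0 < ε) :
    ∃ C : ℝ, ∀ X : ℝ, 1 ≤ X → {x : ℤ | x ∈ Vio d C₁ ∧ |(x : ℝ)| ≤ X}.Finite ∧
      (({x : ℤ | x ∈ Vio d C₁ ∧ |(x : ℝ)| ≤ X}.ncard : ℕ) : ℝ) ≤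
        C * X ^ (1 / 2 + (d + 1) / C₁ + ε) := by
  classical
  have hd1 : (1 : ℝ) ≤ d := by exact_mod_cast hd
  have hC0 : 0 < C₁ := by linarith
  obtain ⟨K, hK⟩ := exists_nat_ge ((d : ℝ) / ε + 1)
  have hK1 : (1 : ℝ) ≤ K := by
    have : 0 ≤ (d : ℝ) / ε := by positivity
    linarith
  have hK1' : 1 ≤ K := by exact_mod_cast hK1
  have hκ : κ d K ≤ 1 / 2 + ε := by
    unfold κ
    have h1 : (d : ℝ) / (4 * K - 2) ≤ ε := by
      rw [div_le_iff₀ (by linarith)]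
      have h2 : (d : ℝ) / ε ≤ K := by linarith
      rw [div_le_iff₀ hε] at h2
      nlinarith
    linarith
  have hκ2 : 1 / 2 ≤ κ d K := by
    unfold κ
    have : (0 : ℝ) < 4 * K - 2 := by linarith
    have : 0 ≤ (d : ℝ) / (4 * K - 2) := by positivity
    linarith
  obtain ⟨C, hC, hC'⟩ := dyadic d hd hC₁ K hK1'
  obtain ⟨s, hs⟩ : ∃ s : ℝ, s = κ d K + (d + 1) / C₁ := ⟨_, rfl⟩
  rw [← hs] at hC'
  have hs2 : 1 / 2 ≤ s := by
    rw [hs]
    have : 0 ≤ ((d : ℝ) + 1) / C₁ := by positivity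
    linarith
  obtain ⟨q, hq⟩ : ∃ q : ℝ, q = 2 ^ s := ⟨_, rfl⟩
  have hq1 : 1 < q := by rw [hq]; exact Real.one_lt_rpow (by norm_num) (by linarith)
  refine ⟨2 * C * (q / (q - 1)), fun X hX => ?_⟩
  have hfin : {x : ℤ | x ∈ Vio d C₁ ∧ |(x : ℝ)| ≤ X}.Finite := by
    refine (finite_Icc' (-X) X (fun _ => True)).subset ?_
    rintro x ⟨-, h⟩
    exact ⟨abs_le.1 h, trivial⟩
  refine ⟨hfin, ?_⟩
  obtain ⟨n, hn⟩ : ∃ n : ℕ, n = Nat.log 2 ⌊X⌋₊ := ⟨_, rfl⟩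
  have hX0 : 0 < X := by linarith
  have hnX : (2 : ℝ) ^ n ≤ X := by
    have h1 : 2 ^ n ≤ ⌊X⌋₊ := by
      rw [hn]
      refine Nat.pow_log_le_self 2 ?_
      have : 1 ≤ ⌊X⌋₊ := Nat.le_floor (by exact_mod_cast hX)
      omega
    have h2 : ((2 ^ n : ℕ) : ℝ) ≤ ⌊X⌋₊ := by exact_mod_cast h1
    push_cast at h2
    exact h2.trans (Nat.floor_le hX0.le)
  obtain ⟨D, hD⟩ : ∃ D : ℕ → Set ℤ, D = fun k =>
    {x : ℤ | (((2 : ℝ) ^ k) ≤ x ∧ (x : ℝ) ≤ 2 * (2 : ℝ) ^ k) ∧ x ∈ Vio d C₁} := ⟨_, rfl⟩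
  have hDfin : ∀ k, (D k).Finite := fun k => by rw [hD]; exact finite_Icc' _ _ _
  have hDcard : ∀ k, (((D k).ncard : ℕ) : ℝ) ≤ C * ((2 : ℝ) ^ k) ^ s := fun k => by
    rw [hD]
    exact hC' _ (one_le_pow₀ (by norm_num))
  have hNcard : ∀ k, (((fun x : ℤ => -x) '' (D k)).ncard : ℕ) = (D k).ncard := fun k =>
    Set.ncard_image_of_injective _ neg_injective
  have hsub : {x : ℤ | x ∈ Vio d C₁ ∧ |(x : ℝ)| ≤ X} ⊆
      ⋃ k ∈ range (n + 1), (D k ∪ (fun x : ℤ => -x) '' (D k)) := by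
    rintro x ⟨h1, h2⟩
    have hx0 : x ≠ 0 := by
      rintro rfl
      obtain ⟨f, -, -, h3, -⟩ := h1
      rw [Int.cast_zero, abs_zero] at h3
      exact absurd h3 (not_lt.2 (by positivity))
    have hxn : x.natAbs ≠ 0 := Int.natAbs_ne_zero.2 hx0
    rw [Set.mem_iUnion₂]
    refine ⟨Nat.log 2 x.natAbs, ?_, ?_⟩
    · rw [mem_range, Nat.lt_succ_iff, hn]
      apply Nat.log_mono_right
      apply Nat.le_floor
      rw [Nat.cast_natAbs, Int.cast_abs]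
      exact h2
    · have h3 : 2 ^ Nat.log 2 x.natAbs ≤ x.natAbs := Nat.pow_log_le_self 2 hxn
      have h4 : x.natAbs < 2 ^ (Nat.log 2 x.natAbs + 1) := Nat.lt_pow_succ_log_self (by norm_num) _
      have h3' : (2 : ℝ) ^ Nat.log 2 x.natAbs ≤ |(x : ℝ)| := by
        have : ((2 ^ Nat.log 2 x.natAbs : ℕ) : ℝ) ≤ (x.natAbs : ℝ) := by exact_mod_cast h3
        rw [Nat.cast_natAbs, Int.cast_abs] at this
        push_cast at this
        exact this
      have h4' : |(x : ℝ)| ≤ 2 * (2 : ℝ) ^ Nat.log 2 x.natAbs := by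
        have : (x.natAbs : ℝ) ≤ ((2 ^ (Nat.log 2 x.natAbs + 1) : ℕ) : ℝ) := by exact_mod_cast h4.le
        rw [Nat.cast_natAbs, Int.cast_abs] at this
        push_cast at this
        rw [pow_succ] at this
        linarith
      rw [hD]
      rcases le_total 0 x with h5 | h5
      · left
        have h6 : |(x : ℝ)| = x := abs_of_nonneg (by exact_mod_cast h5)
        rw [h6] at h3' h4'
        exact ⟨⟨h3', h4'⟩, h1⟩
      · right
        have h6 : |(x : ℝ)| = ((-x : ℤ) : ℝ) := by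
          push_cast
          exact abs_of_nonpos (by exact_mod_cast h5)
        rw [h6] at h3' h4'
        exact ⟨-x, ⟨⟨h3', h4'⟩, Vio_neg h1⟩, neg_neg x⟩
  have hfinU : (⋃ k ∈ range (n + 1), (D k ∪ (fun x : ℤ => -x) '' (D k))).Finite :=
    Set.Finite.biUnion (Finset.finite_toSet _) fun k _ => (hDfin k).union ((hDfin k).image _)
  have hterm : ∀ k, (((2 : ℝ) ^ k) ^ s) = q ^ k := fun k => by
    rw [hq, ← Real.rpow_natCast, ← Real.rpow_natCast, ← Real.rpow_mul (by norm_num),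
      ← Real.rpow_mul (by norm_num), mul_comm]
  have hgeo : ∑ k ∈ range (n + 1), q ^ k ≤ q / (q - 1) * X ^ s := by
    rw [geom_sum_eq hq1.ne', div_mul_eq_mul_div]
    apply div_le_div_of_nonneg_right _ (by linarith)
    have h1 : q ^ n ≤ X ^ s := by
      rw [← hterm]
      exact Real.rpow_le_rpow (by positivity) hnX (by linarith)
    rw [pow_succ]
    nlinarith
  calc (({x : ℤ | x ∈ Vio d C₁ ∧ |(x : ℝ)| ≤ X}.ncard : ℕ) : ℝ)
      ≤ ((⋃ k ∈ range (n + 1), (D k ∪ (fun x : ℤ => -x) '' (D k))).ncard : ℝ) := by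
        exact_mod_cast Set.ncard_le_ncard hsub hfinU
    _ ≤ ∑ k ∈ range (n + 1), (((D k ∪ (fun x : ℤ => -x) '' (D k)).ncard : ℕ) : ℝ) := by
        exact_mod_cast Finset.set_ncard_biUnion_le _ _
    _ ≤ ∑ k ∈ range (n + 1), 2 * C * q ^ k := by
        refine sum_le_sum fun k _ => ?_
        have h1 : (((D k ∪ (fun x : ℤ => -x) '' (D k)).ncard : ℕ) : ℝ) ≤
            (((D k).ncard : ℕ) : ℝ) + (((D k).ncard : ℕ) : ℝ) := by
          have := Set.ncard_union_le (D k) ((fun x : ℤ => -x) '' (D k))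
          rw [hNcard k] at this
          exact_mod_cast this
        have h2 := hDcard k
        rw [hterm] at h2
        linarith
    _ = 2 * C * ∑ k ∈ range (n + 1), q ^ k := by rw [mul_sum]
    _ ≤ 2 * C * (q / (q - 1) * X ^ s) := mul_le_mul_of_nonneg_left hgeo (by positivity)
    _ = 2 * C * (q / (q - 1)) * X ^ s := by ring
    _ ≤ 2 * C * (q / (q - 1)) * X ^ (1 / 2 + (d + 1) / C₁ + ε) := by
        apply mul_le_mul_of_nonneg_left _ (mul_nonneg (by positivity)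
          (div_nonneg (by linarith) (by linarith)))
        apply Real.rpow_le_rpow_of_exponent_le hX
        rw [hs]
        linarith

end Pool.Agent.K7.H12.BP
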