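import Pool.Agent.K7.H12.BP.Alg
import Pool.Agent.W803.HZ.DET

/-!
# Estimates for a polynomial at large real points
-/

set_option autoImplicit false

namespace Pool.Agent.K7.H12.BP

open Polynomial Finset

/-- the real value of an integral polynomial -/
noncomputable def ev (f : ℤ[X]) (x : ℝ) : ℝ := (f.map (Int.castRingHom ℝ)).eval x

lemma ev_eq (f : ℤ[X]) (x : ℝ) :
    ev f x = ∑ j ∈ range (f.natDegree + 1), (f.coeff j : ℝ) * x ^ j := by
  unfold ev
  rw [eval_eq_sum_range' (lt_of_le_of_lt natDegree_map_le (Nat.lt_succ_self _))]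
  simp

lemma ev_int (f : ℤ[X]) (x : ℤ) : ev f x = ((f.eval x : ℤ) : ℝ) := by
  unfold ev
  have := eval_intCast_map (Int.castRingHom ℝ) f x
  simp

section
variable {f : ℤ[X]} {d : ℕ} {H x : ℝ}

lemma lead (hfd : f.natDegree = d) (hd : 1 ≤ d) (hH : 1 ≤ H)
    (hc : ∀ i, |((f.coeff i : ℤ) : ℝ)| ≤ H) (hx : 2 * (d + 1) * H ≤ x) :
    |ev f x - f.coeff d * x ^ d| ≤ x ^ d / 2 := by
  have hd1 : (1 : ℝ) ≤ d := by exact_mod_cast hd
  have hx1 : 1 ≤ x := by nlinarith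
  rw [ev_eq, hfd, sum_range_succ, add_sub_cancel_right]
  obtain ⟨k, rfl⟩ : ∃ k, d = k + 1 := ⟨d - 1, by omega⟩
  have h1 : |∑ j ∈ range (k + 1), (f.coeff j : ℝ) * x ^ j| ≤ ∑ _j ∈ range (k + 1), H * x ^ k := by
    refine (abs_sum_le_sum_abs _ _).trans (sum_le_sum fun j hj => ?_)
    rw [abs_mul, abs_of_nonneg (pow_nonneg (by linarith : (0 : ℝ) ≤ x) j)]
    exact mul_le_mul (hc j) (pow_le_pow_right₀ hx1 (by rw [mem_range] at hj; omega)) (by positivity)
      (by linarith)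
  rw [sum_const, card_range, nsmul_eq_mul] at h1
  refine h1.trans ?_
  rw [pow_succ]
  have hxk : 0 < x ^ k := by positivity
  push_cast at hx ⊢
  nlinarith

lemma ev_pos (hfd : f.natDegree = d) (hd : 1 ≤ d) (hH : 1 ≤ H)
    (hc : ∀ i, |((f.coeff i : ℤ) : ℝ)| ≤ H) (hx : 2 * (d + 1) * H ≤ x) (h : 0 ≤ ev f x) :
    1 ≤ f.coeff d ∧ x ^ d / 2 ≤ ev f x ∧ (f.coeff d : ℝ) * x ^ d ≤ 2 * ev f x := by
  have hd1 : (1 : ℝ) ≤ d := by exact_mod_cast hd
  have hx1 : 1 ≤ x := by nlinarith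
  have hxd : 0 < x ^ d := by positivity
  have h1 := abs_le.1 (lead hfd hd hH hc hx)
  have hne : f.coeff d ≠ 0 := by
    rw [← hfd, coeff_natDegree, leadingCoeff_ne_zero]
    rintro rfl
    rw [natDegree_zero] at hfd
    omega
  have hge : 1 ≤ f.coeff d := by
    by_contra hcon
    have h2 : f.coeff d ≤ -1 := by omega
    have h3 : (f.coeff d : ℝ) ≤ -1 := by exact_mod_cast h2
    have h4 : (f.coeff d : ℝ) * x ^ d ≤ -1 * x ^ d := mul_le_mul_of_nonneg_right h3 hxd.le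
    linarith [h1.2]
  have h3 : (1 : ℝ) ≤ f.coeff d := by exact_mod_cast hge
  have h4 : 1 * x ^ d ≤ (f.coeff d : ℝ) * x ^ d := mul_le_mul_of_nonneg_right h3 hxd.le
  refine ⟨hge, ?_, ?_⟩ <;> linarith [h1.1]

lemma ev_le (hfd : f.natDegree = d) (hd : 1 ≤ d) (hH : 1 ≤ H)
    (hc : ∀ i, |((f.coeff i : ℤ) : ℝ)| ≤ H) (hx : 2 * (d + 1) * H ≤ x) :
    ev f x ≤ x ^ (d + 1) := by
  have hd1 : (1 : ℝ) ≤ d := by exact_mod_cast hd
  have hx1 : 1 ≤ x := by nlinarith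
  have hxd : 0 < x ^ d := by positivity
  have h1 := abs_le.1 (lead hfd hd hH hc hx)
  have h2 : (f.coeff d : ℝ) * x ^ d ≤ H * x ^ d :=
    mul_le_mul_of_nonneg_right ((le_abs_self _).trans (hc d)) hxd.le
  have h3 : (H + 1 / 2) * x ^ d ≤ x * x ^ d := mul_le_mul_of_nonneg_right (by nlinarith) hxd.le
  rw [pow_succ]
  linarith [h1.2]

lemma ratio_le (hfd : f.natDegree = d) (hd : 1 ≤ d) (hH : 1 ≤ H)
    (hc : ∀ i, |((f.coeff i : ℤ) : ℝ)| ≤ H) (hx : 2 * (d + 1) * H ≤ x) (h : 0 ≤ ev f x) {j : ℕ}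
    (hj : j ≤ d) : |(f.coeff j : ℝ) * x ^ j / ev f x| ≤ 2 := by
  have hd1 : (1 : ℝ) ≤ d := by exact_mod_cast hd
  have hx1 : 1 ≤ x := by nlinarith
  have hxd : 0 < x ^ d := by positivity
  obtain ⟨h1, h2, h3⟩ := ev_pos hfd hd hH hc hx h
  have hev : 0 < ev f x := by linarith
  have hx0 : (0 : ℝ) ≤ x := by linarith
  rw [abs_div, abs_of_pos hev, div_le_iff₀ hev, abs_mul, abs_of_nonneg (pow_nonneg hx0 j)]
  rcases Nat.lt_or_ge j d with hlt | hge
  · obtain ⟨k, rfl⟩ : ∃ k, d = k + 1 := ⟨d - 1, by omega⟩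
    have h4 : |((f.coeff j : ℤ) : ℝ)| * x ^ j ≤ H * x ^ k :=
      mul_le_mul (hc j) (pow_le_pow_right₀ hx1 (by omega)) (by positivity) (by linarith)
    have h5 : H * x ^ k ≤ x ^ (k + 1) / 2 := by
      rw [pow_succ]
      have hxk : 0 < x ^ k := by positivity
      have : H ≤ x / 2 := by nlinarith
      nlinarith
    linarith
  · have : j = d := by omega
    subst this
    rw [abs_of_nonneg (by exact_mod_cast (by omega : 0 ≤ f.coeff j))]
    exact h3

/-- the normalised polynomial `f (x (1 + z)) / f (x)` of `z` -/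
noncomputable def nor (f : ℤ[X]) (x : ℝ) : ℝ[X] :=
  ∑ j ∈ range (f.natDegree + 1), C ((f.coeff j : ℝ) * x ^ j / ev f x) * (1 + X) ^ j

lemma eval_nor (f : ℤ[X]) (x z : ℝ) : (nor f x).eval z = ev f (x * (1 + z)) / ev f x := by
  unfold nor
  rw [eval_finsetSum, ev_eq f (x * (1 + z)), sum_div]
  refine sum_congr rfl fun j _ => ?_
  simp only [eval_mul, eval_C, eval_pow, eval_add, eval_one, eval_X]
  rw [mul_pow]
  ring

/-- the dominating polynomial -/
noncomputable def U (d : ℕ) : ℝ[X] := (∑ j ∈ range (d + 1), C 2 * (1 + X) ^ j) + C 1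

lemma dom_nor (hfd : f.natDegree = d) (hd : 1 ≤ d) (hH : 1 ≤ H)
    (hc : ∀ i, |((f.coeff i : ℤ) : ℝ)| ≤ H) (hx : 2 * (d + 1) * H ≤ x) (h : 0 ≤ ev f x) :
    Dom (nor f x - 1) (U d) := by
  have h1 : nor f x - 1 = nor f x + C (-1) := by
    rw [C_neg, C_1]
    ring
  rw [h1]
  unfold U nor
  rw [hfd]
  refine Dom.add (Dom.sum fun j hj => ?_) (dom_C (by simp))
  exact (dom_C (ratio_le hfd hd hH hc hx h (by rw [mem_range] at hj; omega))).mul
    (dom_one_add_X.pow j)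

lemma one_add_pow_sub {z : ℝ} (hz : 0 ≤ z) (hz1 : z ≤ 1) (K : ℕ) : |(1 + z) ^ K - 1| ≤ 3 ^ K * z := by
  have h1 : (1 : ℝ) ≤ (1 + z) ^ K := one_le_pow₀ (by linarith)
  rw [abs_of_nonneg (by linarith)]
  have h2 : (1 + z) ^ K ≤ 1 + 3 ^ K * z := by
    clear h1
    induction K with
    | zero => simpa using hz
    | succ K ih =>
      have h3 : (1 : ℝ) ≤ 3 ^ K := one_le_pow₀ (by norm_num)
      calc (1 + z) ^ (K + 1) = (1 + z) ^ K * (1 + z) := pow_succ _ _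
        _ ≤ (1 + 3 ^ K * z) * (1 + z) := mul_le_mul_of_nonneg_right ih (by linarith)
        _ = 1 + (1 + 3 ^ K + 3 ^ K * z) * z := by ring
        _ ≤ 1 + (3 ^ K + 3 ^ K + 3 ^ K * 1) * z := by gcongr
        _ = 1 + 3 ^ (K + 1) * z := by ring
  linarith

lemma nor_small (hfd : f.natDegree = d) (hd : 1 ≤ d) (hH : 1 ≤ H)
    (hc : ∀ i, |((f.coeff i : ℤ) : ℝ)| ≤ H) (hx : 2 * (d + 1) * H ≤ x) (h : 0 ≤ ev f x) {z : ℝ}
    (hz : 0 ≤ z) (hz1 : z ≤ 1) : |(nor f x - 1).eval z| ≤ 2 * (d + 1) * 3 ^ d * z := by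
  have hd1 : (1 : ℝ) ≤ d := by exact_mod_cast hd
  have hx1 : 1 ≤ x := by nlinarith
  have hxd : 0 < x ^ d := by positivity
  obtain ⟨-, h2, -⟩ := ev_pos hfd hd hH hc hx h
  have hev : ev f x ≠ 0 := by
    have : 0 < ev f x := by linarith
    exact this.ne'
  have h0 : (nor f x).eval 0 = 1 := by
    rw [eval_nor, add_zero, mul_one, div_self hev]
  have h1 : (nor f x - 1).eval z = ∑ j ∈ range (d + 1),
      (f.coeff j : ℝ) * x ^ j / ev f x * ((1 + z) ^ j - 1) := by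
    have e1 : (nor f x - 1).eval z = (nor f x).eval z - (nor f x).eval 0 := by
      rw [h0, eval_sub, eval_one]
    rw [e1]
    unfold nor
    rw [eval_finsetSum, eval_finsetSum, ← sum_sub_distrib, hfd]
    refine sum_congr rfl fun j _ => ?_
    simp only [eval_mul, eval_C, eval_pow, eval_add, eval_one, eval_X, add_zero, one_pow]
    ring
  rw [h1]
  calc |∑ j ∈ range (d + 1), (f.coeff j : ℝ) * x ^ j / ev f x * ((1 + z) ^ j - 1)|
      ≤ ∑ _j ∈ range (d + 1), 2 * (3 ^ d * z) := by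
        refine (abs_sum_le_sum_abs _ _).trans (sum_le_sum fun j hj => ?_)
        rw [abs_mul]
        have hjd : j ≤ d := by rw [mem_range] at hj; omega
        refine mul_le_mul (ratio_le hfd hd hH hc hx h hjd) ?_ (abs_nonneg _) (by norm_num)
        refine (one_add_pow_sub hz hz1 j).trans ?_
        exact mul_le_mul_of_nonneg_right (pow_le_pow_right₀ (by norm_num) hjd) hz
    _ = 2 * (d + 1) * 3 ^ d * z := by
        rw [sum_const, card_range, nsmul_eq_mul]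
        push_cast
        ring

end

/-- the remainder of the approximations of the square root -/
lemma sqrt_approx {m : ℕ} {T R : ℝ[X]} (hR : T ^ 2 - (1 + X) = X ^ m * R) {w0 R1 : ℝ}
    (hT : ∀ w : ℝ, |w| ≤ w0 → |T.eval w - 1| ≤ 1 / 2) (hR1 : ∀ w : ℝ, |w| ≤ 1 → |R.eval w| ≤ R1)
    {w : ℝ} (hw : |w| ≤ w0) (hw1 : |w| ≤ 1) :
    |Real.sqrt (1 + w) - T.eval w| ≤ 2 * R1 * |w| ^ m := by
  have h1 := abs_le.1 (hT w hw)
  have hT0 : 1 / 2 ≤ T.eval w := by linarith [h1.1]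
  have hw2 := (abs_le.1 hw1).1
  have hs := Real.sqrt_nonneg (1 + w)
  have hsq := Real.mul_self_sqrt (show 0 ≤ 1 + w by linarith)
  have h2 : (T.eval w) ^ 2 - (1 + w) = w ^ m * R.eval w := by
    have := congrArg (fun p => p.eval w) hR
    simpa using this
  have h3 : (Real.sqrt (1 + w) - T.eval w) * (Real.sqrt (1 + w) + T.eval w) = -(w ^ m * R.eval w) := by
    rw [← h2]
    nlinarith
  have h4 : |Real.sqrt (1 + w) - T.eval w| * (1 / 2) ≤ |w| ^ m * R1 := by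
    calc |Real.sqrt (1 + w) - T.eval w| * (1 / 2)
        ≤ |Real.sqrt (1 + w) - T.eval w| * (Real.sqrt (1 + w) + T.eval w) :=
          mul_le_mul_of_nonneg_left (by linarith) (abs_nonneg _)
      _ = |(Real.sqrt (1 + w) - T.eval w) * (Real.sqrt (1 + w) + T.eval w)| := by
          rw [abs_mul, abs_of_nonneg (by linarith : 0 ≤ Real.sqrt (1 + w) + T.eval w)]
      _ = |w| ^ m * |R.eval w| := by rw [h3, abs_neg, abs_mul, abs_pow]
      _ ≤ |w| ^ m * R1 := mul_le_mul_of_nonneg_left (hR1 w hw1) (by positivity)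
  linarith

end Pool.Agent.K7.H12.BP
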