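import Pool.Agent.K7.H12.BP.Est

/-!
# Few integral points of a hyperelliptic curve in a short interval
-/

set_option autoImplicit false

namespace Pool.Agent.K7.H12.BP

open Polynomial Finset

/-- sum of the first coefficients -/
noncomputable def csum (M : ℕ) (Q : ℝ[X]) : ℝ := ∑ k ∈ range M, Q.coeff k

lemma le_csum {P Q : ℝ[X]} (h : Dom P Q) {M k : ℕ} (hk : k < M) : |P.coeff k| ≤ csum M Q :=
  (h k).trans (single_le_sum (f := fun i => Q.coeff i) (fun i _ => h.nonneg i) (mem_range.2 hk))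

lemma csum_nonneg {P Q : ℝ[X]} (h : Dom P Q) (M : ℕ) : 0 ≤ csum M Q :=
  sum_nonneg fun i _ => h.nonneg i

/-- the exponent `1 / 2 + d / (4 K - 2)` -/
noncomputable def κ (d K : ℕ) : ℝ := 1 / 2 + d / (4 * K - 2)

lemma nat_exp (s t : ℕ) : (s + t) * (s + t - 1) / 2 ≤
    (s + t) * s + (t * (t - 1) / 2 + s * (s - 1) / 2) := by
  have ev2 : ∀ n : ℕ, 2 * (n * (n - 1) / 2) = n * (n - 1) := fun n =>
    Nat.mul_div_cancel' (by
      have := (Nat.even_mul_pred_self n).two_dvd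
      exact this)
  have h1 := ev2 (s + t)
  have h2 := ev2 t
  have h3 := ev2 s
  have h4 : (s + t) * (s + t - 1) ≤ 2 * ((s + t) * s) + (t * (t - 1) + s * (s - 1)) := by
    rcases Nat.eq_zero_or_pos s with rfl | hs
    · simp
    rcases Nat.eq_zero_or_pos t with rfl | ht
    · simp only [add_zero]
      have : s * (s - 1) ≤ s * s := Nat.mul_le_mul_left _ (Nat.sub_le _ _)
      omega
    obtain ⟨a, rfl⟩ : ∃ a, s = a + 1 := ⟨s - 1, by omega⟩
    obtain ⟨b, rfl⟩ : ∃ b, t = b + 1 := ⟨t - 1, by omega⟩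
    have e1 : a + 1 + (b + 1) - 1 = a + b + 1 := by omega
    rw [e1, Nat.add_sub_cancel, Nat.add_sub_cancel]
    nlinarith
  omega

/-- the columns -/
noncomputable def Vp (K : ℕ) (S : ℝ[X]) (j : Fin K ⊕ Fin K) : ℝ[X] :=
  Sum.elim (fun j : Fin K => (1 + X) ^ (j : ℕ)) (fun j : Fin K => (1 + X) ^ (j : ℕ) * S) j

/-- the columns of the errors -/
noncomputable def Wp (K : ℕ) (j : Fin K ⊕ Fin K) : ℝ[X] :=
  Sum.elim (fun _ : Fin K => 0) (fun j : Fin K => (1 + X) ^ (j : ℕ)) j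

/-- the bounds of the coefficients -/
noncomputable def ρp (K M : ℕ) (Q : ℝ[X]) (j : Fin K ⊕ Fin K) : ℝ :=
  Sum.elim (fun j : Fin K => csum M ((1 + X) ^ (j : ℕ)))
    (fun j : Fin K => csum M ((1 + X) ^ (j : ℕ) * Q) + csum M ((1 + X) ^ (j : ℕ))) j

/-- the determinant bound -/
lemma det_bound {K M : ℕ} {S Q : ℝ[X]} (hSQ : Dom S Q) {C3 δ : ℝ} (hC3 : 1 ≤ C3) (hδ0 : 0 ≤ δ)
    (hδ1 : δ ≤ 1) {z ε : Fin K ⊕ Fin K → ℝ} (hz : ∀ i, |z i| ≤ δ)
    (hε : ∀ i, |ε i| ≤ C3 * δ ^ (2 * K)) :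
    |Matrix.det (Matrix.of fun i j : Fin K ⊕ Fin K =>
      ∑ k : Fin M, z i ^ (k : ℕ) * ((Vp K S j).coeff k + ε i * (Wp K j).coeff k))| ≤
      ((2 * K).factorial * (2 * M) ^ (2 * K) * (∏ j, ρp K M Q j)) *
        (C3 ^ (2 * K) * δ ^ (K * (2 * K - 1))) := by
  have hcard : Fintype.card (Fin K ⊕ Fin K) = 2 * K := by
    rw [Fintype.card_sum, Fintype.card_fin]
    ring
  have h1 : ∀ j : ℕ, Dom ((1 + X) ^ j : ℝ[X]) ((1 + X) ^ j) := fun j => dom_one_add_X.pow j
  have h2 : ∀ j : ℕ, Dom ((1 + X) ^ j * S) ((1 + X) ^ j * Q) := fun j => (h1 j).mul hSQ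
  have key := Pool.Agent.W803.HZ.DET.t (n := Fin K ⊕ Fin K) M (fun k j => (Vp K S j).coeff k)
    (fun k j => (Wp K j).coeff k) (ρp K M Q) (by
      rintro (j | j)
      · exact csum_nonneg (h1 j) M
      · exact add_nonneg (csum_nonneg (h2 j) M) (csum_nonneg (h1 j) M))
    (by
      rintro k (j | j)
      · exact le_csum (h1 j) k.2
      · exact (le_csum (h2 j) k.2).trans (le_add_of_nonneg_right (csum_nonneg (h1 j) M)))
    (by
      rintro k (j | j)
      · simpa [Wp, ρp] using csum_nonneg (h1 j) M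
      · exact (le_csum (h1 j) k.2).trans (le_add_of_nonneg_left (csum_nonneg (h2 j) M)))
    z ε δ (C3 * δ ^ (2 * K)) hz hδ1 hε (C3 ^ (2 * K) * δ ^ (K * (2 * K - 1))) (by
      intro s hs
      rw [hcard] at hs ⊢
      obtain ⟨t, ht⟩ : ∃ t, 2 * K = s + t := ⟨2 * K - s, by omega⟩
      have e0 : K * (2 * K - 1) = (s + t) * (s + t - 1) / 2 := by
        rw [← ht, mul_assoc, Nat.mul_div_cancel_left _ (by norm_num)]
      have e1 : 2 * K - s = t := by omega
      rw [e0, e1, ht, mul_pow, ← pow_mul, mul_assoc, ← pow_add]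
      exact mul_le_mul (pow_le_pow_right₀ hC3 (by omega))
        (pow_le_pow_of_le_one hδ0 hδ1 (nat_exp s t)) (by positivity) (by positivity))
  rw [hcard] at key
  exact key

lemma eval_row {K M : ℕ} {S : ℝ[X]} (hS : S.natDegree + K < M) (z e : ℝ) (j : Fin K ⊕ Fin K) :
    ∑ k : Fin M, z ^ (k : ℕ) * ((Vp K S j).coeff k + e * (Wp K j).coeff k) =
      Sum.elim (fun j : Fin K => (1 + z) ^ (j : ℕ)) (fun j : Fin K => (1 + z) ^ (j : ℕ) *
        (S.eval z + e)) j := by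
  have hd : ∀ j : Fin K, ((1 + X) ^ (j : ℕ) : ℝ[X]).natDegree ≤ K := by
    intro j
    refine natDegree_pow_le.trans ?_
    have h1 : (1 + X : ℝ[X]).natDegree ≤ 1 := by
      have : (1 + X : ℝ[X]) = X + C 1 := by rw [C_1, add_comm]
      rw [this, natDegree_X_add_C]
    calc (j : ℕ) * (1 + X : ℝ[X]).natDegree ≤ (j : ℕ) * 1 := Nat.mul_le_mul_left _ h1
      _ ≤ K := by have := j.2; omega
  have hsum : ∀ P Q : ℝ[X], P.natDegree < M → Q.natDegree < M →
      ∑ k : Fin M, z ^ (k : ℕ) * (P.coeff k + e * Q.coeff k) = P.eval z + e * Q.eval z := by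
    intro P Q hP hQ
    rw [eval_fin hP, eval_fin hQ, mul_sum, ← sum_add_distrib]
    exact sum_congr rfl fun k _ => by ring
  rcases j with j | j
  · have h1 := hsum ((1 + X) ^ (j : ℕ)) 0 (by have := hd j; omega) (by simp; omega)
    simpa [Vp, Wp] using h1
  · have h1 := hsum ((1 + X) ^ (j : ℕ) * S) ((1 + X) ^ (j : ℕ)) (by
      have := hd j
      have h2 := natDegree_mul_le (p := (1 + X : ℝ[X]) ^ (j : ℕ)) (q := S)
      omega) (by have := hd j; omega)
    rw [eval_mul] at h1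
    simp only [Vp, Wp, Sum.elim_inr]
    rw [h1]
    simp only [eval_pow, eval_add, eval_one, eval_X]
    ring

lemma prod_scale (K : ℕ) (x0 s : ℝ) :
    ∏ j : Fin K ⊕ Fin K, Sum.elim (fun j : Fin K => x0 ^ (j : ℕ)) (fun j : Fin K => x0 ^ (j : ℕ) * s) j
      = x0 ^ (K * (K - 1)) * s ^ K := by
  rw [Fintype.prod_sum_type]
  simp only [Sum.elim_inl, Sum.elim_inr]
  rw [prod_mul_distrib, prod_const, card_univ, Fintype.card_fin]
  have h1 : ∏ j : Fin K, x0 ^ (j : ℕ) = x0 ^ (∑ i ∈ range K, i) := by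
    rw [← Finset.prod_range (fun i => x0 ^ i), prod_pow_eq_pow_sum]
  rw [h1, ← mul_assoc, ← pow_add, ← mul_two, sum_range_id_mul_two]

/-- **Few points in a short interval.** -/
theorem window (d K : ℕ) (hd : 1 ≤ d) (hK : 1 ≤ K) : ∃ c : ℝ, 0 < c ∧ c ≤ 1 ∧
    ∀ f : ℤ[X], f.natDegree = d → (f.map (Int.castRingHom ℚ)).Separable → ∀ H : ℝ, 1 ≤ H →
    (∀ i, |((f.coeff i : ℤ) : ℝ)| ≤ H) → ∀ x0 : ℝ, 2 * (d + 1) * H ≤ x0 → ∀ P : Finset ℤ,
    (∀ x ∈ P, x0 ≤ x ∧ (x : ℝ) ≤ x0 * (1 + c * x0 ^ (-κ d K)) ∧ ∃ y : ℤ, y ^ 2 = f.eval x) →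
    P.card ≤ 2 * K + d := by
  obtain ⟨T, R, hT0, hTR⟩ := exists_sqrt (2 * K)
  -- continuity of `T`
  obtain ⟨w0, hw0, hw0'⟩ : ∃ w0 : ℝ, 0 < w0 ∧ ∀ w : ℝ, |w| ≤ w0 → |T.eval w - 1| ≤ 1 / 2 := by
    have h1 := Metric.continuousAt_iff.1 (T.continuous.continuousAt (x := 0)) (1 / 2) (by norm_num)
    obtain ⟨r, hr, hr'⟩ := h1
    refine ⟨r / 2, by positivity, fun w hw => ?_⟩
    have h2 := hr' (x := w) (by rw [Real.dist_eq, sub_zero]; linarith)
    rw [Real.dist_eq, hT0] at h2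
    exact h2.le
  obtain ⟨R1, hR1⟩ : ∃ R1 : ℝ, ∀ w : ℝ, |w| ≤ 1 → |R.eval w| ≤ R1 := by
    obtain ⟨R1, hR1⟩ := (isCompact_Icc (a := (-1 : ℝ)) (b := 1)).exists_bound_of_continuousOn
      (f := fun w => R.eval w) R.continuous.continuousOn
    exact ⟨R1, fun w hw => by
      have := hR1 w (abs_le.1 hw)
      rwa [Real.norm_eq_abs] at this⟩
  have hR10 : 0 ≤ R1 := (abs_nonneg _).trans (hR1 0 (by norm_num))
  -- constants
  obtain ⟨Cd, hCd⟩ : ∃ Cd : ℝ, Cd = 2 * (d + 1) * 3 ^ d := ⟨_, rfl⟩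
  have hCd0 : 0 < Cd := by rw [hCd]; positivity
  obtain ⟨C3, hC3⟩ : ∃ C3 : ℝ, C3 = 1 + 2 * R1 * Cd ^ (2 * K) := ⟨_, rfl⟩
  have hC31 : 1 ≤ C3 := by
    rw [hC3]
    have : 0 ≤ 2 * R1 * Cd ^ (2 * K) := by positivity
    linarith
  obtain ⟨Q, hQ⟩ : ∃ Q : ℝ[X], Q = ∑ i ∈ range (T.natDegree + 1), C |T.coeff i| * (U d) ^ i :=
    ⟨_, rfl⟩
  obtain ⟨M, hM⟩ : ∃ M : ℕ, M = T.natDegree * d + K + 1 := ⟨_, rfl⟩
  obtain ⟨B, hB⟩ : ∃ B : ℝ, B = ((2 * K).factorial * (2 * M) ^ (2 * K) * (∏ j, ρp K M Q j)) *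
    C3 ^ (2 * K) := ⟨_, rfl⟩
  obtain ⟨c, hc⟩ : ∃ c : ℝ, c = min 1 (min (w0 / Cd) (min (1 / Cd) (1 / (|B| + 1)))) := ⟨_, rfl⟩
  have hB1 : 0 < |B| + 1 := by positivity
  have hc0 : 0 < c := by
    rw [hc]
    exact lt_min one_pos (lt_min (by positivity) (lt_min (by positivity) (by positivity)))
  have hc1 : c ≤ 1 := by rw [hc]; exact min_le_left _ _
  have hc2 : Cd * c ≤ w0 := by
    have : c ≤ w0 / Cd := by rw [hc]; exact (min_le_right _ _).trans (min_le_left _ _)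
    rw [le_div_iff₀ hCd0] at this
    linarith
  have hc3 : Cd * c ≤ 1 := by
    have : c ≤ 1 / Cd := by
      rw [hc]
      exact (min_le_right _ _).trans ((min_le_right _ _).trans (min_le_left _ _))
    rw [le_div_iff₀ hCd0] at this
    linarith
  have hc4 : c * (|B| + 1) ≤ 1 := by
    have : c ≤ 1 / (|B| + 1) := by
      rw [hc]
      exact (min_le_right _ _).trans ((min_le_right _ _).trans (min_le_right _ _))
    rwa [le_div_iff₀ hB1] at this
  refine ⟨c, hc0, hc1, ?_⟩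
  intro f hfd hsep H hH hcoef x0 hx0 P hP
  rcases P.eq_empty_or_nonempty with rfl | ⟨p0, hp0⟩
  · simp
  have hd1 : (1 : ℝ) ≤ d := by exact_mod_cast hd
  have hx1 : 1 ≤ x0 := by nlinarith
  have hx00 : 0 < x0 := by linarith
  have hκ0 : 0 ≤ κ d K := by
    unfold κ
    have : (1 : ℝ) ≤ K := by exact_mod_cast hK
    have : (0 : ℝ) < 4 * K - 2 := by linarith
    positivity
  obtain ⟨δ, hδ⟩ : ∃ δ : ℝ, δ = c * x0 ^ (-κ d K) := ⟨_, rfl⟩
  have hxκ : x0 ^ (-κ d K) ≤ 1 := Real.rpow_le_one_of_one_le_of_nonpos hx1 (by linarith)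
  have hxκ0 : 0 < x0 ^ (-κ d K) := by positivity
  have hδ0 : 0 < δ := by rw [hδ]; positivity
  have hδc : δ ≤ c := by rw [hδ]; nlinarith
  have hδ1 : δ ≤ 1 := hδc.trans hc1
  -- positivity at `x0`
  have hpx : ∀ x ∈ P, 2 * (d + 1) * H ≤ (x : ℝ) := fun x hx => hx0.trans (hP x hx).1
  have hevn : ∀ x ∈ P, 0 ≤ ev f x := by
    intro x hx
    obtain ⟨-, -, y, hy⟩ := hP x hx
    rw [ev_int, ← hy]
    push_cast
    positivity
  have hlc : 1 ≤ f.coeff d := (ev_pos hfd hd hH hcoef (hpx p0 hp0) (hevn p0 hp0)).1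
  have hx0pos : 0 < ev f x0 := by
    have h1 := abs_le.1 (lead hfd hd hH hcoef hx0)
    have h2 : (1 : ℝ) ≤ f.coeff d := by exact_mod_cast hlc
    have h3 : 0 < x0 ^ d := by positivity
    nlinarith [h1.1]
  -- the square roots
  have hy : ∀ x : P, ∃ y : ℤ, 0 ≤ y ∧ y ^ 2 = f.eval (x : ℤ) := by
    intro x
    obtain ⟨-, -, y, hy⟩ := hP x x.2
    exact ⟨|y|, abs_nonneg _, by rw [sq_abs, hy]⟩
  choose y hy0 hy2 using hy
  obtain ⟨φ, hφ⟩ : ∃ φ : P → Fin K ⊕ Fin K → ℝ, φ = fun x : P => Sum.elim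
    (fun j : Fin K => ((x : ℤ) : ℝ) ^ (j : ℕ)) (fun j : Fin K => ((x : ℤ) : ℝ) ^ (j : ℕ) * y x) :=
    ⟨_, rfl⟩
  have hdet : ∀ x : Fin K ⊕ Fin K → P, Matrix.det (Matrix.of fun i j => φ (x i) j) = 0 := by
    intro x
    obtain ⟨z, hz⟩ : ∃ z : Fin K ⊕ Fin K → ℝ, z = fun i => (((x i : ℤ) : ℝ) - x0) / x0 := ⟨_, rfl⟩
    have hxz : ∀ i, ((x i : ℤ) : ℝ) = x0 * (1 + z i) := by
      intro i
      rw [hz]
      field_simp
      ring
    have hz0 : ∀ i, 0 ≤ z i := by
      intro i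
      rw [hz]
      exact div_nonneg (by have := (hP _ (x i).2).1; linarith) hx00.le
    have hzδ : ∀ i, z i ≤ δ := by
      intro i
      have h1 := (hP _ (x i).2).2.1
      rw [hxz i, ← hδ] at h1
      have := le_of_mul_le_mul_left h1 hx00
      linarith
    have hz1 : ∀ i, z i ≤ 1 := fun i => (hzδ i).trans hδ1
    obtain ⟨u, hu⟩ : ∃ u : ℝ[X], u = nor f x0 - 1 := ⟨_, rfl⟩
    have hudom : Dom u (U d) := by rw [hu]; exact dom_nor hfd hd hH hcoef hx0 hx0pos.le
    have husmall : ∀ i, |u.eval (z i)| ≤ Cd * z i := by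
      intro i
      rw [hu, hCd]
      exact nor_small hfd hd hH hcoef hx0 hx0pos.le (hz0 i) (hz1 i)
    have hu1 : ∀ i, 1 + u.eval (z i) = ev f (x i : ℤ) / ev f x0 := by
      intro i
      rw [hu, eval_sub, eval_one, eval_nor, ← hxz i]
      ring
    have hudeg : u.natDegree ≤ d := by
      rw [hu]
      unfold nor
      refine (natDegree_sub_le _ _).trans (max_le ?_ (by simp))
      refine natDegree_sum_le_of_forall_le _ _ fun j hj => ?_
      rw [mem_range, hfd] at hj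
      refine (natDegree_C_mul_le _ _).trans (natDegree_pow_le.trans ?_)
      have h1 : (1 + X : ℝ[X]).natDegree ≤ 1 := by
        have : (1 + X : ℝ[X]) = X + C 1 := by rw [C_1, add_comm]
        rw [this, natDegree_X_add_C]
      calc j * (1 + X : ℝ[X]).natDegree ≤ j * 1 := Nat.mul_le_mul_left _ h1
        _ ≤ d := by omega
    obtain ⟨S, hS⟩ : ∃ S : ℝ[X], S = T.comp u := ⟨_, rfl⟩
    have hSQ : Dom S Q := by rw [hS, hQ]; exact Dom.comp hudom
    have hSdeg : S.natDegree + K < M := by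
      have h1 : S.natDegree ≤ T.natDegree * d := by
        rw [hS, natDegree_comp]
        exact Nat.mul_le_mul_left _ hudeg
      omega
    obtain ⟨ε, hε⟩ : ∃ ε : Fin K ⊕ Fin K → ℝ, ε = fun i =>
      Real.sqrt (1 + u.eval (z i)) - T.eval (u.eval (z i)) := ⟨_, rfl⟩
    have hεle : ∀ i, |ε i| ≤ C3 * δ ^ (2 * K) := by
      intro i
      have h1 : |u.eval (z i)| ≤ Cd * δ :=
        (husmall i).trans (mul_le_mul_of_nonneg_left (hzδ i) hCd0.le)
      have h2 : Cd * δ ≤ Cd * c := mul_le_mul_of_nonneg_left hδc hCd0.le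
      have h3 := sqrt_approx hTR hw0' hR1 (h1.trans (h2.trans hc2)) (h1.trans (h2.trans hc3))
      rw [hε]
      refine h3.trans ?_
      calc 2 * R1 * |u.eval (z i)| ^ (2 * K) ≤ 2 * R1 * (Cd * δ) ^ (2 * K) :=
            mul_le_mul_of_nonneg_left (pow_le_pow_left₀ (abs_nonneg _) h1 _) (by positivity)
        _ = (2 * R1 * Cd ^ (2 * K)) * δ ^ (2 * K) := by rw [mul_pow]; ring
        _ ≤ C3 * δ ^ (2 * K) := by
            apply mul_le_mul_of_nonneg_right _ (by positivity)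
            rw [hC3]
            linarith
    have hD := det_bound (M := M) hSQ hC31 hδ0.le hδ1 (z := z) (ε := ε)
      (fun i => by rw [abs_of_nonneg (hz0 i)]; exact hzδ i) hεle
    -- the matrix is the scaled one
    have hmat : (Matrix.of fun i j => φ (x i) j) = Matrix.of fun i j => Sum.elim
        (fun j : Fin K => x0 ^ (j : ℕ)) (fun j : Fin K => x0 ^ (j : ℕ) * Real.sqrt (ev f x0)) j *
        (Matrix.of fun i j : Fin K ⊕ Fin K => ∑ k : Fin M, z i ^ (k : ℕ) * ((Vp K S j).coeff k +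
          ε i * (Wp K j).coeff k)) i j := by
      ext i j
      simp only [Matrix.of_apply]
      rw [eval_row hSdeg]
      have hyx : ((y (x i) : ℤ) : ℝ) = Real.sqrt (ev f x0) * (S.eval (z i) + ε i) := by
        have e1 : S.eval (z i) + ε i = Real.sqrt (1 + u.eval (z i)) := by
          rw [hε, hS, eval_comp]
          ring
        rw [e1, hu1 i, ← Real.sqrt_mul hx0pos.le, mul_div_cancel₀ _ hx0pos.ne', ev_int, ← hy2 (x i)]
        push_cast
        rw [Real.sqrt_sq (by exact_mod_cast hy0 (x i))]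
      rw [hφ]
      rcases j with j | j
      · simp only [Sum.elim_inl]
        rw [hxz i, mul_pow]
      · simp only [Sum.elim_inr]
        rw [hyx, hxz i, mul_pow]
        ring
    have hdeteq := Matrix.det_mul_row (Sum.elim
        (fun j : Fin K => x0 ^ (j : ℕ)) (fun j : Fin K => x0 ^ (j : ℕ) * Real.sqrt (ev f x0)))
        (Matrix.of fun i j : Fin K ⊕ Fin K => ∑ k : Fin M, z i ^ (k : ℕ) * ((Vp K S j).coeff k +
          ε i * (Wp K j).coeff k))
    rw [← hmat, prod_scale] at hdeteq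
    -- the integral matrix
    obtain ⟨Z, hZ⟩ : ∃ Z : Matrix (Fin K ⊕ Fin K) (Fin K ⊕ Fin K) ℤ, Z = Matrix.of fun i => Sum.elim
      (fun j : Fin K => ((x i : ℤ)) ^ (j : ℕ)) (fun j : Fin K => ((x i : ℤ)) ^ (j : ℕ) * y (x i)) :=
      ⟨_, rfl⟩
    have hZdet : Matrix.det (Matrix.of fun i j => φ (x i) j) = ((Z.det : ℤ) : ℝ) := by
      have : (Matrix.of fun i j => φ (x i) j) = (Int.castRingHom ℝ).mapMatrix Z := by
        ext i j
        rw [hφ, hZ]
        rcases j with j | j <;> simp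
      rw [this, ← RingHom.map_det]
      simp
    rw [hZdet]
    have hsqrt : Real.sqrt (ev f x0) ≤ x0 ^ (((d : ℝ) + 1) / 2) := by
      rw [Real.sqrt_le_left (by positivity), ← Real.rpow_natCast, ← Real.rpow_mul hx00.le]
      have h1 := ev_le hfd hd hH hcoef hx0
      rw [← Real.rpow_natCast] at h1
      refine h1.trans (le_of_eq ?_)
      congr 1
      push_cast
      ring
    have hfin : |((Z.det : ℤ) : ℝ)| < 1 := by
      rw [← hZdet, hdeteq, abs_mul, abs_of_nonneg (by positivity)]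
      have h1 : x0 ^ (K * (K - 1)) * Real.sqrt (ev f x0) ^ K ≤
          x0 ^ ((K : ℝ) * (K - 1) + (d + 1) / 2 * K) := by
        calc x0 ^ (K * (K - 1)) * Real.sqrt (ev f x0) ^ K
            ≤ x0 ^ (K * (K - 1)) * (x0 ^ (((d : ℝ) + 1) / 2)) ^ K := by gcongr
          _ = x0 ^ ((K : ℝ) * (K - 1) + (d + 1) / 2 * K) := by
              rw [← Real.rpow_natCast x0 (K * (K - 1)), ← Real.rpow_natCast _ K,
                ← Real.rpow_mul hx00.le, ← Real.rpow_add hx00]
              congr 1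
              push_cast [Nat.cast_sub hK]
              ring
      have h2 : δ ^ (K * (2 * K - 1)) ≤ c * x0 ^ (-((K : ℝ) * (K - 1) + (d + 1) / 2 * K)) := by
        rw [hδ, mul_pow, ← Real.rpow_natCast (x0 ^ (-κ d K)), ← Real.rpow_mul hx00.le]
        have e1 : -κ d K * ((K * (2 * K - 1) : ℕ) : ℝ) = -((K : ℝ) * (K - 1) + (d + 1) / 2 * K) := by
          unfold κ
          have h3 : (4 * (K : ℝ) - 2) ≠ 0 := by
            have : (1 : ℝ) ≤ K := by exact_mod_cast hK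
            have : (0 : ℝ) < 4 * K - 2 := by linarith
            exact this.ne'
          rw [Nat.cast_mul, Nat.cast_sub (by omega)]
          push_cast
          field_simp
          ring
        rw [e1]
        apply mul_le_mul_of_nonneg_right _ (by positivity)
        calc c ^ (K * (2 * K - 1)) ≤ c ^ 1 := pow_le_pow_of_le_one hc0.le hc1 (by
              have : 1 ≤ 2 * K - 1 := by omega
              exact Nat.mul_pos (by omega) this)
          _ = c := pow_one c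
      obtain ⟨B0, hB0⟩ : ∃ B0 : ℝ, B0 = (2 * K).factorial * (2 * M) ^ (2 * K) *
        (∏ j, ρp K M Q j) := ⟨_, rfl⟩
      rw [← hB0] at hD hB
      have hB0' : B0 * (C3 ^ (2 * K) * δ ^ (K * (2 * K - 1))) = B * δ ^ (K * (2 * K - 1)) := by
        rw [hB]; ring
      rw [hB0'] at hD
      have h3 : B * δ ^ (K * (2 * K - 1)) ≤
          |B| * (c * x0 ^ (-((K : ℝ) * (K - 1) + (d + 1) / 2 * K))) :=
        mul_le_mul (le_abs_self B) h2 (by positivity) (abs_nonneg B)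
      have h4 : x0 ^ ((K : ℝ) * (K - 1) + (d + 1) / 2 * K) *
          x0 ^ (-((K : ℝ) * (K - 1) + (d + 1) / 2 * K)) = 1 := by
        rw [← Real.rpow_add hx00, add_neg_cancel, Real.rpow_zero]
      calc x0 ^ (K * (K - 1)) * Real.sqrt (ev f x0) ^ K * |Matrix.det (Matrix.of fun i j :
            Fin K ⊕ Fin K => ∑ k : Fin M, z i ^ (k : ℕ) * ((Vp K S j).coeff k +
            ε i * (Wp K j).coeff k))|
          ≤ x0 ^ ((K : ℝ) * (K - 1) + (d + 1) / 2 * K) *
            (|B| * (c * x0 ^ (-((K : ℝ) * (K - 1) + (d + 1) / 2 * K)))) :=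
            mul_le_mul h1 (hD.trans h3) (abs_nonneg _) (by positivity)
        _ = c * |B| * (x0 ^ ((K : ℝ) * (K - 1) + (d + 1) / 2 * K) *
              x0 ^ (-((K : ℝ) * (K - 1) + (d + 1) / 2 * K))) := by ring
        _ = c * |B| := by rw [h4, mul_one]
        _ < 1 := by
            have : c * |B| < c * (|B| + 1) := mul_lt_mul_of_pos_left (by linarith) hc0
            linarith
    have hint : |Z.det| < 1 := by exact_mod_cast hfin
    have h0 : Z.det = 0 := Int.abs_lt_one_iff.1 hint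
    rw [h0, Int.cast_zero]
  -- the relation
  obtain ⟨a, ha, ha'⟩ := exists_rel φ hdet
  obtain ⟨A, hA⟩ : ∃ A : ℝ[X], A = ∑ j : Fin K, C (a (Sum.inl j)) * X ^ (j : ℕ) := ⟨_, rfl⟩
  obtain ⟨E, hE⟩ : ∃ E : ℝ[X], E = ∑ j : Fin K, C (a (Sum.inr j)) * X ^ (j : ℕ) := ⟨_, rfl⟩
  have hrel : ∀ x : P, A.eval ((x : ℤ) : ℝ) + E.eval ((x : ℤ) : ℝ) * y x = 0 := by
    intro x
    have h1 := ha' x
    rw [Fintype.sum_sum_type, hφ] at h1
    simp only [Sum.elim_inl, Sum.elim_inr] at h1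
    rw [hA, hE, eval_finsetSum, eval_finsetSum, sum_mul]
    simp only [eval_mul, eval_C, eval_pow, eval_X]
    rw [← h1]
    congr 1
    exact sum_congr rfl fun j _ => by ring
  have hdegs : ∀ b : Fin K → ℝ, (∑ j : Fin K, C (b j) * X ^ (j : ℕ) : ℝ[X]).natDegree ≤ K - 1 := by
    intro b
    refine natDegree_sum_le_of_forall_le _ _ fun j _ => ?_
    refine (natDegree_C_mul_X_pow_le _ _).trans ?_
    have := j.2
    omega
  have hcoef' : ∀ (b : Fin K → ℝ) (j : Fin K), (∑ j : Fin K, C (b j) * X ^ (j : ℕ) : ℝ[X]).coeff j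
      = b j := by
    intro b j
    rw [finsetSum_coeff]
    simp only [coeff_C_mul, coeff_X_pow]
    rw [sum_eq_single j]
    · simp
    · intro k _ hk
      rw [if_neg, mul_zero]
      intro h
      exact hk (Fin.ext h.symm)
    · intro h
      exact absurd (mem_univ _) h
  obtain ⟨W, hW⟩ : ∃ W : ℝ[X], W = A ^ 2 - (f.map (Int.castRingHom ℝ)) * E ^ 2 := ⟨_, rfl⟩
  have hfR : (f.map (Int.castRingHom ℝ)).Separable := by
    have h1 := hsep.map (f := algebraMap ℚ ℝ)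
    have e : (algebraMap ℚ ℝ).comp (Int.castRingHom ℚ) = Int.castRingHom ℝ := RingHom.ext_int _ _
    rw [Polynomial.map_map, e] at h1
    exact h1
  have hfRd : (f.map (Int.castRingHom ℝ)).natDegree = d := by
    rw [natDegree_map_eq_of_injective (RingHom.injective_int _), hfd]
  have hW0 : W ≠ 0 := by
    intro h
    rw [hW, sub_eq_zero] at h
    obtain ⟨h1, h2⟩ := sq_rel hfR (by rw [hfRd]; exact hd) h
    apply ha
    funext j
    rcases j with j | j
    · have h3 := hcoef' (fun j => a (Sum.inl j)) j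
      rw [← hA, h1, coeff_zero] at h3
      exact h3.symm
    · have h3 := hcoef' (fun j => a (Sum.inr j)) j
      rw [← hE, h2, coeff_zero] at h3
      exact h3.symm
  have hWd : W.natDegree ≤ 2 * K + d := by
    have hA1 : A.natDegree ≤ K - 1 := by rw [hA]; exact hdegs _
    have hE1 : E.natDegree ≤ K - 1 := by rw [hE]; exact hdegs _
    rw [hW]
    refine (natDegree_sub_le _ _).trans (max_le ?_ ?_)
    · refine natDegree_pow_le.trans ?_
      omega
    · refine natDegree_mul_le.trans ?_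
      rw [hfRd]
      have := natDegree_pow_le (p := E) (n := 2)
      omega
  have hroot : ∀ x ∈ P, W.IsRoot (x : ℝ) := by
    intro x hx
    have h1 := hrel ⟨x, hx⟩
    have h2 : ((y ⟨x, hx⟩ : ℤ) : ℝ) ^ 2 = (f.map (Int.castRingHom ℝ)).eval (x : ℝ) := by
      have h3 := ev_int f x
      unfold ev at h3
      rw [h3, ← hy2 ⟨x, hx⟩]
      push_cast
      rfl
    rw [IsRoot.def, hW, eval_sub, eval_mul, eval_pow, eval_pow, ← h2]
    have h4 : A.eval (x : ℝ) = -(E.eval (x : ℝ) * y ⟨x, hx⟩) := by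
      have : A.eval (x : ℝ) + E.eval (x : ℝ) * y ⟨x, hx⟩ = 0 := h1
      linarith
    rw [h4]
    ring
  calc P.card = (P.image (fun x : ℤ => (x : ℝ))).card :=
        (card_image_of_injective _ Int.cast_injective).symm
    _ ≤ W.roots.toFinset.card := by
        apply card_le_card
        intro r hr
        rw [mem_image] at hr
        obtain ⟨x, hx, rfl⟩ := hr
        rw [Multiset.mem_toFinset, mem_roots hW0]
        exact hroot x hx
    _ ≤ Multiset.card W.roots := Multiset.toFinset_card_le _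
    _ ≤ W.natDegree := card_roots' W
    _ ≤ 2 * K + d := hWd

end Pool.Agent.K7.H12.BP
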